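import Pool.Graph.R_pool_sql_team_seeded_3997aac3.Q97.UM.Stm6

set_option autoImplicit false

/-! Module PRO of project LG: the bounds for the profile `e^{iz} (om w z)²`, without the statement file. -/

namespace Pool.Agent.H17.LG

open Filter Topology MeasureTheory Complex
open Pool.Agent.Q97.UM

noncomputable section

variable {δ H C : ℝ} {K : ℕ} {w : ℝ → ℝ}

lemma w_cont (hw : OmW δ H C K w) : Continuous w := by
  obtain ⟨D, hD⟩ := hw.lip
  rw [Metric.continuous_iff]
  intro b ε hε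
  refine ⟨ε / (|D| + 1), by positivity, fun a ha => ?_⟩
  rw [Real.dist_eq] at ha ⊢
  have h2 : D * |a - b| ≤ |D| * |a - b| := mul_le_mul_of_nonneg_right (le_abs_self D) (abs_nonneg _)
  have h3 : |a - b| * (|D| + 1) < ε := by
    rwa [lt_div_iff₀ (by positivity)] at ha
  have h4 := hD a b
  nlinarith [abs_nonneg (a - b), abs_nonneg D]

lemma w_supp (hw : OmW δ H C K w) : HasCompactSupport w := by
  refine HasCompactSupport.intro (isCompact_Icc (a := -δ) (b := δ)) fun x hx => ?_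
  apply hw.supp
  by_contra hc
  rw [not_le, abs_lt] at hc
  exact hx ⟨hc.1.le, hc.2.le⟩

lemma om_diff (hδ : δ ≤ 1 / 16) (hw : OmW δ H C K w) : Differentiable ℂ (om w) := by
  intro z₀
  have hc := w_cont hw
  have hs := w_supp hw
  have key := hasDerivAt_integral_of_dominated_loc_of_deriv_le (𝕜 := ℂ) (μ := volume)
    (F := fun z v => (w v : ℂ) * cexp (I * (v * z)))
    (F' := fun z v => (w v : ℂ) * (cexp (I * (v * z)) * (I * v)))
    (x₀ := z₀) (s := Metric.ball z₀ 1) (bound := fun v => |w v| * Real.exp (‖z₀‖ + 1))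
    (Metric.ball_mem_nhds z₀ one_pos) ?_ ?_ ?_ ?_ ?_ ?_
  · exact key.2.differentiableAt
  · refine Eventually.of_forall fun z => Continuous.aestronglyMeasurable ?_
    exact (Complex.continuous_ofReal.comp hc).mul (by fun_prop)
  · apply Continuous.integrable_of_hasCompactSupport
    · exact (Complex.continuous_ofReal.comp hc).mul (by fun_prop)
    · exact HasCompactSupport.mul_right (hs.comp_left Complex.ofReal_zero)
  · refine Continuous.aestronglyMeasurable ?_
    exact (Complex.continuous_ofReal.comp hc).mul (by fun_prop)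
  · refine Eventually.of_forall fun v z hz => ?_
    by_cases hv : δ ≤ |v|
    · rw [hw.supp v hv]
      simp
    · rw [not_le] at hv
      rw [norm_mul, norm_mul, norm_mul, Complex.norm_I, one_mul, Complex.norm_real, Complex.norm_real,
        Real.norm_eq_abs, Real.norm_eq_abs, Complex.norm_exp]
      have h1 : (I * (v * z)).re = -(v * z.im) := by
        simp
      rw [h1]
      have h2 : -(v * z.im) ≤ ‖z₀‖ + 1 := by
        have h3 : |v * z.im| ≤ 1 * ‖z‖ := by
          rw [abs_mul]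
          exact mul_le_mul (by linarith) (Complex.abs_im_le_norm z) (abs_nonneg _) zero_le_one
        have h4 : ‖z‖ ≤ ‖z₀‖ + 1 := by
          have h5 : ‖z - z₀‖ < 1 := by rwa [← dist_eq_norm]
          have h6 := norm_sub_norm_le z z₀
          linarith
        have h7 := neg_abs_le (v * z.im)
        linarith
      have h8 : Real.exp (-(v * z.im)) * |v| ≤ Real.exp (‖z₀‖ + 1) * 1 :=
        mul_le_mul (Real.exp_le_exp.2 h2) (by linarith) (abs_nonneg _) (Real.exp_pos _).le
      rw [mul_one] at h8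
      exact mul_le_mul_of_nonneg_left h8 (abs_nonneg _)
  · exact ((hc.abs).integrable_of_hasCompactSupport (hs.comp_left abs_zero)).mul_const _
  · refine Eventually.of_forall fun v z _ => ?_
    have h1 : HasDerivAt (fun z : ℂ => I * (v * z)) (I * v) z := by
      have := ((hasDerivAt_id z).const_mul (v : ℂ)).const_mul I
      simpa using this
    exact (h1.cexp).const_mul _

/-- distance to the right of the edge -/
def mm (H x : ℝ) : ℝ := max 0 (|x| - H)

lemma mm_nonneg (H x : ℝ) : 0 ≤ mm H x := le_max_left _ _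

/-- the profile -/
def G0 (w : ℝ → ℝ) (z : ℂ) : ℂ := cexp (I * z) * om w z ^ 2

lemma G0_diff (hδ : δ ≤ 1 / 16) (hw : OmW δ H C K w) : Differentiable ℂ (G0 w) := by
  unfold G0
  exact ((differentiable_id.const_mul I).cexp).mul ((om_diff hδ hw).pow 2)

lemma om_sq_bound (hδ0 : 0 < δ) (hC : 1 ≤ C) (hK : 2 ≤ K) (hw : OmW δ H C K w) (z : ℂ) :
    ‖om w z‖ ^ 2 ≤ 4 * C ^ 2 * Real.exp (2 * δ * |z.im|) / (1 + mm H z.re) ^ 4 := by
  have he : Real.exp (2 * δ * |z.im|) = Real.exp (δ * |z.im|) ^ 2 := by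
    rw [← Real.exp_nat_mul]
    congr 1
    push_cast
    ring
  have hE : 1 ≤ Real.exp (δ * |z.im|) := Real.one_le_exp (by positivity)
  set E := Real.exp (δ * |z.im|) with hEdef
  rw [he]
  rcases le_total |z.re| H with h | h
  · have h0 : mm H z.re = 0 := max_eq_left (by linarith)
    rw [h0]
    have h1 := hw.near z h
    have h2 : C * E / (1 + (H - |z.re|)) ^ K ≤ C * E := by
      apply div_le_self (by positivity)
      exact one_le_pow₀ (by linarith)
    have h3 : ‖om w z‖ ≤ 2 * C * E := by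
      have h4 : ‖om w z‖ ≤ ‖om w z - 1‖ + 1 := by
        have := norm_add_le (om w z - 1) 1
        rw [sub_add_cancel, norm_one] at this
        exact this
      have h5 : 1 ≤ C * E := by nlinarith
      linarith
    have h6 : ‖om w z‖ ^ 2 ≤ (2 * C * E) ^ 2 := pow_le_pow_left₀ (norm_nonneg _) h3 2
    calc _ ≤ _ := h6
      _ = _ := by ring
  · have h0 : mm H z.re = |z.re| - H := max_eq_right (by linarith)
    rw [h0]
    have h1 := hw.far z h
    have hb : 1 ≤ 1 + (|z.re| - H) := by linarith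
    have h2 : C * E / (1 + (|z.re| - H)) ^ K ≤ C * E / (1 + (|z.re| - H)) ^ 2 := by
      apply div_le_div_of_nonneg_left (by positivity) (by positivity)
      exact pow_le_pow_right₀ hb hK
    have h3 := h1.trans h2
    have h6 : ‖om w z‖ ^ 2 ≤ (C * E / (1 + (|z.re| - H)) ^ 2) ^ 2 :=
      pow_le_pow_left₀ (norm_nonneg _) h3 2
    refine h6.trans ?_
    rw [div_pow, ← pow_mul]
    apply div_le_div_of_nonneg_right _ (by positivity)
    nlinarith [show 0 ≤ C ^ 2 * E ^ 2 by positivity]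

lemma G0_bound (hδ0 : 0 < δ) (hδ : δ ≤ 1 / 16) (hC : 1 ≤ C) (hK : 2 ≤ K) (hw : OmW δ H C K w)
    (z : ℂ) : ‖G0 w z‖ ≤ 4 * C ^ 2 * Real.exp (9 / 8 * |z.im|) / (1 + mm H z.re) ^ 4 := by
  unfold G0
  rw [norm_mul, norm_pow, Complex.norm_exp]
  have h1 : (I * z).re = -z.im := by simp
  rw [h1]
  have h2 := om_sq_bound hδ0 hC hK hw z
  have h3 : Real.exp (-z.im) * Real.exp (2 * δ * |z.im|) ≤ Real.exp (9 / 8 * |z.im|) := by
    rw [← Real.exp_add]
    apply Real.exp_le_exp.2
    have := neg_abs_le z.im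
    nlinarith [abs_nonneg z.im]
  have h4 := mm_nonneg H z.re
  calc Real.exp (-z.im) * ‖om w z‖ ^ 2
      ≤ Real.exp (-z.im) * (4 * C ^ 2 * Real.exp (2 * δ * |z.im|) / (1 + mm H z.re) ^ 4) :=
        mul_le_mul_of_nonneg_left h2 (Real.exp_pos _).le
    _ = 4 * C ^ 2 * (Real.exp (-z.im) * Real.exp (2 * δ * |z.im|)) / (1 + mm H z.re) ^ 4 := by ring
    _ ≤ _ := by
        apply div_le_div_of_nonneg_right _ (by positivity)
        exact mul_le_mul_of_nonneg_left h3 (by positivity)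

/-- near a real point `om w ^ 2` is close to a constant -/
lemma near_const (hδ0 : 0 < δ) (hδ : δ ≤ 1 / 16) (hC : 1 ≤ C) (hK : 2 ≤ K) (hw : OmW δ H C K w)
    (x : ℝ) : ∃ c : ℂ, ∀ z : ℂ, ‖z - x‖ ≤ 1 / 2 →
      ‖om w z ^ 2 - c‖ ≤ 36 * C ^ 2 / (1 + |(|x| - H)|) ^ 2 := by
  have hre : ∀ z : ℂ, ‖z - x‖ ≤ 1 / 2 → |(|z.re| - |x|)| ≤ 1 / 2 ∧ |z.im| ≤ 1 / 2 := by
    intro z hz
    have h1 := (Complex.abs_re_le_norm (z - x)).trans hz
    have h2 := (Complex.abs_im_le_norm (z - x)).trans hz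
    simp only [Complex.sub_re, Complex.ofReal_re, Complex.sub_im, Complex.ofReal_im, sub_zero] at h1 h2
    exact ⟨(abs_abs_sub_abs_le_abs_sub _ _).trans h1, h2⟩
  have hexp : ∀ z : ℂ, ‖z - x‖ ≤ 1 / 2 → Real.exp (δ * |z.im|) ≤ 5 / 4 := by
    intro z hz
    have h1 := (hre z hz).2
    have h2 : δ * |z.im| ≤ 1 / 32 := by nlinarith [abs_nonneg z.im]
    have h3 : Real.exp (δ * |z.im|) ≤ Real.exp (1 / 32) := Real.exp_le_exp.2 h2
    have h4 : Real.exp (1 / 32 : ℝ) ≤ 5 / 4 := by
      have h5 := Real.exp_bound_div_one_sub_of_interval (x := (1 / 32 : ℝ)) (by norm_num) (by norm_num)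
      refine h5.trans ?_
      norm_num
    exact h3.trans h4
  rcases lt_or_ge (|(|x| - H)|) (1 / 2) with hx | hx
  · refine ⟨0, fun z hz => ?_⟩
    rw [sub_zero, norm_pow]
    have h1 := om_sq_bound hδ0 hC hK hw z
    have h2 := hexp z hz
    have h3 : Real.exp (2 * δ * |z.im|) ≤ (5 / 4) ^ 2 := by
      have he : Real.exp (2 * δ * |z.im|) = Real.exp (δ * |z.im|) ^ 2 := by
        rw [← Real.exp_nat_mul]
        congr 1
        push_cast
        ring
      rw [he]
      exact pow_le_pow_left₀ (Real.exp_pos _).le h2 2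
    have h4 := mm_nonneg H z.re
    have h5 : ‖om w z‖ ^ 2 ≤ 4 * C ^ 2 * (5 / 4) ^ 2 := by
      refine h1.trans ((div_le_self (by positivity) (one_le_pow₀ (by linarith))).trans ?_)
      exact mul_le_mul_of_nonneg_left h3 (by positivity)
    refine h5.trans ?_
    rw [le_div_iff₀ (by positivity)]
    have h6 : (1 + |(|x| - H)|) ^ 2 ≤ (3 / 2) ^ 2 :=
      pow_le_pow_left₀ (by positivity) (by linarith) 2
    nlinarith [show 0 ≤ C ^ 2 by positivity]
  · rcases le_total (|x|) H with hxH | hxH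
    · refine ⟨1, fun z hz => ?_⟩
      have hd : |(|x| - H)| = H - |x| := by rw [abs_of_nonpos (by linarith)]; ring
      rw [hd] at hx ⊢
      obtain ⟨h1, -⟩ := hre z hz
      have h1' := (abs_le.1 h1)
      have h2 : |z.re| ≤ H := by linarith
      have h3 := hw.near z h2
      have h4 := hexp z hz
      have hb : 1 ≤ 1 + (H - |z.re|) := by linarith
      have h5 : ‖om w z - 1‖ ≤ C * (5 / 4) / (1 + (H - |z.re|)) ^ 2 := by
        refine h3.trans (div_le_div₀ (by positivity) ?_ (by positivity) (pow_le_pow_right₀ hb hK))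
        exact mul_le_mul_of_nonneg_left h4 (by linarith)
      have h6 : ‖om w z - 1‖ ≤ C * (5 / 4) :=
        h5.trans (div_le_self (by positivity) (one_le_pow₀ hb))
      have h7 : ‖om w z ^ 2 - 1‖ ≤ ‖om w z - 1‖ * (‖om w z - 1‖ + 2) := by
        have e1 : om w z ^ 2 - 1 = (om w z - 1) * ((om w z - 1) + 2) := by ring
        rw [e1, norm_mul]
        apply mul_le_mul_of_nonneg_left _ (norm_nonneg _)
        refine (norm_add_le _ _).trans ?_
        simp
      have h8 : ‖om w z - 1‖ + 2 ≤ C * (13 / 4) := by linarith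
      have h9 : 1 / (1 + (H - |z.re|)) ^ 2 ≤ 4 / (1 + (H - |x|)) ^ 2 := by
        rw [div_le_div_iff₀ (by positivity) (by positivity)]
        have : (1 + (H - |x|)) ≤ 2 * (1 + (H - |z.re|)) := by linarith
        nlinarith
      calc ‖om w z ^ 2 - 1‖ ≤ ‖om w z - 1‖ * (‖om w z - 1‖ + 2) := h7
        _ ≤ (C * (5 / 4) / (1 + (H - |z.re|)) ^ 2) * (C * (13 / 4)) :=
            mul_le_mul h5 h8 (by positivity) (by positivity)
        _ = C ^ 2 * (65 / 16) * (1 / (1 + (H - |z.re|)) ^ 2) := by ring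
        _ ≤ C ^ 2 * (65 / 16) * (4 / (1 + (H - |x|)) ^ 2) :=
            mul_le_mul_of_nonneg_left h9 (by positivity)
        _ = (65 / 4 * C ^ 2) / (1 + (H - |x|)) ^ 2 := by ring
        _ ≤ _ := by
            apply div_le_div_of_nonneg_right _ (by positivity)
            nlinarith [show 0 ≤ C ^ 2 by positivity]
    · refine ⟨0, fun z hz => ?_⟩
      rw [sub_zero, norm_pow]
      have hd : |(|x| - H)| = |x| - H := abs_of_nonneg (by linarith)
      rw [hd] at hx ⊢
      obtain ⟨h1, -⟩ := hre z hz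
      have h1' := (abs_le.1 h1)
      have h2 : H ≤ |z.re| := by linarith
      have h3 := hw.far z h2
      have h4 := hexp z hz
      have hb : 1 ≤ 1 + (|z.re| - H) := by linarith
      have h5 : ‖om w z‖ ≤ C * (5 / 4) / (1 + (|z.re| - H)) := by
        refine h3.trans (div_le_div₀ (by positivity) ?_ (by positivity) ?_)
        · exact mul_le_mul_of_nonneg_left h4 (by linarith)
        · calc 1 + (|z.re| - H) = (1 + (|z.re| - H)) ^ 1 := (pow_one _).symm
            _ ≤ _ := pow_le_pow_right₀ hb (by omega)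
      have h6 : ‖om w z‖ ^ 2 ≤ (C * (5 / 4) / (1 + (|z.re| - H))) ^ 2 :=
        pow_le_pow_left₀ (norm_nonneg _) h5 2
      have h9 : 1 / (1 + (|z.re| - H)) ^ 2 ≤ 4 / (1 + (|x| - H)) ^ 2 := by
        rw [div_le_div_iff₀ (by positivity) (by positivity)]
        have : (1 + (|x| - H)) ≤ 2 * (1 + (|z.re| - H)) := by linarith
        have h0 : 0 ≤ 1 + (|x| - H) := by linarith
        nlinarith
      calc ‖om w z‖ ^ 2 ≤ _ := h6
        _ = C ^ 2 * (25 / 16) * (1 / (1 + (|z.re| - H)) ^ 2) := by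
            rw [div_pow]
            ring
        _ ≤ C ^ 2 * (25 / 16) * (4 / (1 + (|x| - H)) ^ 2) :=
            mul_le_mul_of_nonneg_left h9 (by positivity)
        _ = (25 / 4 * C ^ 2) / (1 + (|x| - H)) ^ 2 := by ring
        _ ≤ _ := by
            apply div_le_div_of_nonneg_right _ (by positivity)
            nlinarith [show 0 ≤ C ^ 2 by positivity]

lemma part_b (hδ0 : 0 < δ) (hδ : δ ≤ 1 / 16) (hC : 1 ≤ C) (hK : 2 ≤ K) (hw : OmW δ H C K w)
    (x h : ℝ) (hh : |h| ≤ 1 / 4) : ‖om w (x : ℂ) ^ 2 - om w ((x - h : ℝ) : ℂ) ^ 2‖ ≤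
      144 * C ^ 2 * |h| / (1 + |(|x| - H)|) ^ 2 := by
  obtain ⟨c, hc⟩ := near_const hδ0 hδ hC hK hw x
  set S : ℝ := 36 * C ^ 2 / (1 + |(|x| - H)|) ^ 2 with hS
  set f : ℂ → ℂ := fun z => om w z ^ 2 - c with hf
  have hfd : Differentiable ℂ f := ((om_diff hδ hw).pow 2).sub_const c
  have hder : ∀ z ∈ Metric.closedBall (x : ℂ) (1 / 4), ‖deriv f z‖ ≤ S / (1 / 4) := by
    intro z hz
    refine Complex.norm_deriv_le_of_forall_mem_sphere_norm_le (by norm_num) hfd.diffContOnCl ?_
    intro u hu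
    apply hc
    rw [Metric.mem_closedBall, dist_eq_norm] at hz
    rw [mem_sphere_iff_norm] at hu
    calc ‖u - x‖ = ‖(u - z) + (z - x)‖ := by congr 1; ring
      _ ≤ ‖u - z‖ + ‖z - x‖ := norm_add_le _ _
      _ ≤ _ := by linarith
  have hx : (x : ℂ) ∈ Metric.closedBall (x : ℂ) (1 / 4) := by simp
  have hxh : ((x - h : ℝ) : ℂ) ∈ Metric.closedBall (x : ℂ) (1 / 4) := by
    rw [Metric.mem_closedBall, dist_eq_norm]
    have e1 : ((x - h : ℝ) : ℂ) - x = ((-h : ℝ) : ℂ) := by push_cast; ring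
    rw [e1, Complex.norm_real, Real.norm_eq_abs, abs_neg]
    exact hh
  have key := (convex_closedBall (x : ℂ) (1 / 4)).norm_image_sub_le_of_norm_deriv_le
    (fun z _ => hfd z) hder hxh hx
  have e1 : f x - f ((x - h : ℝ) : ℂ) = om w (x : ℂ) ^ 2 - om w ((x - h : ℝ) : ℂ) ^ 2 := by
    simp only [hf]; ring
  have e2 : ‖(x : ℂ) - ((x - h : ℝ) : ℂ)‖ = |h| := by
    have e1 : (x : ℂ) - ((x - h : ℝ) : ℂ) = ((h : ℝ) : ℂ) := by push_cast; ring
    rw [e1, Complex.norm_real, Real.norm_eq_abs]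
  rw [e1, e2] at key
  refine key.trans (le_of_eq ?_)
  rw [hS]
  ring

/-- the second difference of an entire function along the imaginary direction -/
lemma second_diff {F : ℂ → ℂ} (hF : Differentiable ℂ F) (x y M : ℝ)
    (hM : ∀ z : ℂ, |z.re - x| ≤ 1 → |z.im| ≤ |y| + 1 → ‖F z‖ ≤ M) :
    ‖F (x + y * I) + F (x - y * I) - 2 * F x‖ ≤ 8 * M * y ^ 2 := by
  have hM0 : 0 ≤ M := (norm_nonneg (F x)).trans (hM x (by simp) (by simp; positivity))
  have hF' : Differentiable ℂ (deriv F) := fun z => ((hF.analyticAt z).deriv).differentiableAt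
  -- first derivative
  have h1 : ∀ z : ℂ, |z.re - x| ≤ 1 / 2 → |z.im| ≤ |y| + 1 / 2 → ‖deriv F z‖ ≤ M / (1 / 2) := by
    intro z hz1 hz2
    refine Complex.norm_deriv_le_of_forall_mem_sphere_norm_le (by norm_num) hF.diffContOnCl ?_
    intro u hu
    rw [mem_sphere_iff_norm] at hu
    have h3 := (Complex.abs_re_le_norm (u - z)).trans hu.le
    have h4 := (Complex.abs_im_le_norm (u - z)).trans hu.le
    rw [Complex.sub_re] at h3
    rw [Complex.sub_im] at h4
    apply hM
    · rw [abs_le] at *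
      constructor <;> linarith
    · rw [abs_le] at *
      constructor <;> linarith
  have h2 : ∀ z : ℂ, z.re = x → |z.im| ≤ |y| → ‖deriv (deriv F) z‖ ≤ (M / (1 / 2)) / (1 / 2) := by
    intro z hz1 hz2
    refine Complex.norm_deriv_le_of_forall_mem_sphere_norm_le (by norm_num) hF'.diffContOnCl ?_
    intro u hu
    rw [mem_sphere_iff_norm] at hu
    have h3 := (Complex.abs_re_le_norm (u - z)).trans hu.le
    have h4 := (Complex.abs_im_le_norm (u - z)).trans hu.le
    rw [Complex.sub_re] at h3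
    rw [Complex.sub_im] at h4
    rw [hz1] at h3
    apply h1
    · exact h3
    · rw [abs_le] at *
      constructor <;> linarith
  have hconv : Convex ℝ {z : ℂ | z.re = x ∧ |z.im| ≤ |y|} := by
    have e1 : {z : ℂ | z.re = x ∧ |z.im| ≤ |y|} = (fun t : ℝ => (x : ℂ) + t * I) '' Set.Icc (-|y|) |y| := by
      ext z
      constructor
      · rintro ⟨h3, h4⟩
        refine ⟨z.im, abs_le.1 h4, ?_⟩
        apply Complex.ext <;> simp [h3]
      · rintro ⟨t, ht, rfl⟩
        refine ⟨by simp, ?_⟩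
        simpa using abs_le.2 ht
    intro a ha b hb s t hs ht hst
    obtain ⟨ha1, ha2⟩ := ha
    obtain ⟨hb1, hb2⟩ := hb
    refine ⟨?_, ?_⟩
    · simp only [Complex.add_re, Complex.real_smul, Complex.mul_re, Complex.ofReal_re,
        Complex.ofReal_im, zero_mul, sub_zero, ha1, hb1]
      rw [← add_mul, hst, one_mul]
    · simp only [Complex.add_im, Complex.real_smul, Complex.mul_im, Complex.ofReal_re,
        Complex.ofReal_im, zero_mul, add_zero]
      calc |s * a.im + t * b.im| ≤ |s * a.im| + |t * b.im| := abs_add_le _ _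
        _ = s * |a.im| + t * |b.im| := by rw [abs_mul, abs_mul, abs_of_nonneg hs, abs_of_nonneg ht]
        _ ≤ s * |y| + t * |y| := by gcongr
        _ = |y| := by rw [← add_mul, hst, one_mul]
  have h3 : ∀ t : ℝ, |t| ≤ |y| → ‖deriv F (x + t * I) - deriv F (x - t * I)‖ ≤ 8 * M * |y| := by
    intro t ht
    have ha : (x + t * I : ℂ) ∈ {z : ℂ | z.re = x ∧ |z.im| ≤ |y|} := ⟨by simp, by simpa using ht⟩
    have hb : (x - t * I : ℂ) ∈ {z : ℂ | z.re = x ∧ |z.im| ≤ |y|} := ⟨by simp, by simpa using ht⟩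
    have key := hconv.norm_image_sub_le_of_norm_deriv_le (fun z _ => hF' z)
      (fun z hz => h2 z hz.1 hz.2) hb ha
    have e1 : ‖(x + t * I : ℂ) - (x - t * I)‖ = 2 * |t| := by
      have : (x + t * I : ℂ) - (x - t * I) = ((2 * t : ℝ) : ℂ) * I := by push_cast; ring
      rw [this, norm_mul, Complex.norm_I, mul_one, Complex.norm_real, Real.norm_eq_abs, abs_mul]
      norm_num
    rw [e1] at key
    refine key.trans ?_
    nlinarith [abs_nonneg t]
  -- the second difference
  have h4 : ∀ t ∈ Set.uIcc (0 : ℝ) y, HasDerivWithinAt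
      (fun t : ℝ => F (x + t * I) + F (x - t * I) - 2 * F x)
      (deriv F (x + t * I) * I - deriv F (x - t * I) * I) (Set.uIcc 0 y) t := by
    intro t _
    have ha : HasDerivAt (fun t : ℝ => (x + t * I : ℂ)) I t := by
      have := ((Complex.ofRealCLM.hasDerivAt (x := t)).mul_const I).const_add (x : ℂ)
      simpa using this
    have hb : HasDerivAt (fun t : ℝ => (x - t * I : ℂ)) (-I) t := by
      have := ((Complex.ofRealCLM.hasDerivAt (x := t)).mul_const I).const_sub (x : ℂ)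
      simpa using this
    have hA := (hF (x + t * I)).hasDerivAt.scomp t ha
    have hB := (hF (x - t * I)).hasDerivAt.scomp t hb
    have hC := ((hA.add hB).sub_const (2 * F x)).hasDerivWithinAt (s := Set.uIcc 0 y)
    refine hC.congr_deriv ?_
    simp only [smul_eq_mul]
    ring
  have key := (convex_uIcc (0 : ℝ) y).norm_image_sub_le_of_norm_hasDerivWithin_le (C := 8 * M * |y|) h4
    (fun t ht => ?_) (Set.left_mem_uIcc) (Set.right_mem_uIcc)
  · simp only [Complex.ofReal_zero, zero_mul, add_zero, sub_zero, Real.norm_eq_abs] at key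
    have e1 : F x + F x - 2 * F x = 0 := by ring
    rw [e1, sub_zero] at key
    refine key.trans (le_of_eq ?_)
    rw [mul_assoc, ← sq, sq_abs]
  · have ht' : |t| ≤ |y| := by
      rcases Set.mem_uIcc.1 ht with h | h
      · rw [abs_of_nonneg h.1]
        exact h.2.trans (le_abs_self _)
      · rw [abs_of_nonpos h.2]
        have := neg_abs_le y
        linarith [h.1]
    have e1 : deriv F (x + t * I) * I - deriv F (x - t * I) * I =
        (deriv F (x + t * I) - deriv F (x - t * I)) * I := by ring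
    rw [e1, norm_mul, Complex.norm_I, mul_one]
    exact h3 t ht'

lemma part_c (hδ0 : 0 < δ) (hδ : δ ≤ 1 / 16) (hC : 1 ≤ C) (hK : 2 ≤ K) (hw : OmW δ H C K w)
    (x y : ℝ) : ‖G0 w (x + y * I) + G0 w (x - y * I) - 2 * G0 w x‖ ≤
      2048 * C ^ 2 * y ^ 2 * Real.exp (2 * |y|) / (1 + max 0 (|x| - H)) ^ 4 := by
  have hm := mm_nonneg H x
  set M : ℝ := 256 * C ^ 2 * Real.exp (2 * |y|) / (1 + mm H x) ^ 4 with hMdef
  have hbd : ∀ z : ℂ, |z.re - x| ≤ 1 → |z.im| ≤ |y| + 1 → ‖G0 w z‖ ≤ M := by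
    intro z h1 h2
    refine (G0_bound hδ0 hδ hC hK hw z).trans ?_
    have h3 := mm_nonneg H z.re
    have h4 : mm H x ≤ mm H z.re + 1 := by
      unfold mm
      have h5 : |x| ≤ |z.re| + 1 := by
        have h6 := abs_sub_abs_le_abs_sub x z.re
        rw [abs_sub_comm] at h6
        linarith
      apply max_le
      · have := le_max_left (0 : ℝ) (|z.re| - H)
        linarith
      · have := le_max_right (0 : ℝ) (|z.re| - H)
        linarith
    have h5 : (1 + mm H x) ≤ 2 * (1 + mm H z.re) := by linarith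
    have h6 : (1 + mm H x) ^ 4 ≤ 16 * (1 + mm H z.re) ^ 4 := by
      calc (1 + mm H x) ^ 4 ≤ (2 * (1 + mm H z.re)) ^ 4 := pow_le_pow_left₀ (by linarith) h5 4
        _ = _ := by ring
    have h7 : Real.exp (9 / 8 * |z.im|) ≤ 4 * Real.exp (2 * |y|) := by
      have h8 : Real.exp (9 / 8 * |z.im|) ≤ Real.exp (9 / 8) * Real.exp (2 * |y|) := by
        rw [← Real.exp_add]
        apply Real.exp_le_exp.2
        nlinarith [abs_nonneg y]
      have h9 : Real.exp (9 / 8 : ℝ) ≤ 4 := by
        have e1 : Real.exp (9 / 8 : ℝ) = Real.exp 1 * Real.exp (1 / 8) := by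
          rw [← Real.exp_add]; norm_num
        rw [e1]
        have h10 := Real.exp_one_lt_d9
        have h11 : Real.exp (1 / 8 : ℝ) ≤ 8 / 7 := by
          have := Real.exp_bound_div_one_sub_of_interval (x := (1 / 8 : ℝ)) (by norm_num) (by norm_num)
          refine this.trans ?_
          norm_num
        nlinarith [Real.exp_pos (1 / 8 : ℝ), Real.exp_pos (1 : ℝ)]
      exact h8.trans (mul_le_mul_of_nonneg_right h9 (Real.exp_pos _).le)
    rw [hMdef, div_le_div_iff₀ (by positivity) (by positivity)]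
    calc 4 * C ^ 2 * Real.exp (9 / 8 * |z.im|) * (1 + mm H x) ^ 4
        ≤ 4 * C ^ 2 * (4 * Real.exp (2 * |y|)) * (16 * (1 + mm H z.re) ^ 4) := by
          gcongr
      _ = _ := by ring
  have key := second_diff (G0_diff hδ hw) x y M hbd
  refine key.trans (le_of_eq ?_)
  rw [hMdef]
  unfold mm
  ring

theorem pro0 (δ C : ℝ) (K : ℕ) (hδ0 : 0 < δ) (hδ : δ ≤ 1 / 16) (hC : 1 ≤ C) (hK : 2 ≤ K) :
    ∃ C₁ : ℝ, 1 ≤ C₁ ∧ ∀ (H : ℝ) (w : ℝ → ℝ), 1 ≤ H → OmW δ H C K w →
  Continuous (G0 w) ∧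
  (∀ x y : ℝ, ‖G0 w (x + y * I)‖ ≤ C₁ * Real.exp (2 * |y|) / (1 + max 0 (|x| - H)) ^ 4) ∧
  (∀ x h : ℝ, |h| ≤ 1 / 4 → ‖om w (x : ℂ) ^ 2 - om w ((x - h : ℝ) : ℂ) ^ 2‖ ≤ C₁ * |h| / (1 + |(|x| - H)|) ^ 2) ∧
  (∀ x y : ℝ, ‖G0 w (x + y * I) + G0 w (x - y * I) - 2 * G0 w x‖ ≤ C₁ * y ^ 2 * Real.exp (2 * |y|) / (1 + max 0 (|x| - H)) ^ 4) := by
  have hC2 : 1 ≤ C ^ 2 := one_le_pow₀ hC
  refine ⟨2048 * C ^ 2, by linarith, fun H w _ hw => ⟨(G0_diff hδ hw).continuous, ?_, ?_, ?_⟩⟩
  · intro x y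
    have h1 := G0_bound hδ0 hδ hC hK hw (x + y * I)
    have e1 : (x + y * I : ℂ).re = x := by simp
    have e2 : (x + y * I : ℂ).im = y := by simp
    rw [e1, e2] at h1
    refine h1.trans ?_
    unfold mm
    apply div_le_div_of_nonneg_right _ (by positivity)
    have h2 : Real.exp (9 / 8 * |y|) ≤ Real.exp (2 * |y|) := by
      apply Real.exp_le_exp.2
      nlinarith [abs_nonneg y]
    have h3 := Real.exp_pos (2 * |y|)
    calc 4 * C ^ 2 * Real.exp (9 / 8 * |y|) ≤ 4 * C ^ 2 * Real.exp (2 * |y|) :=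
          mul_le_mul_of_nonneg_left h2 (by positivity)
      _ ≤ _ := by
          apply mul_le_mul_of_nonneg_right _ h3.le
          linarith
  · intro x h hh
    refine (part_b hδ0 hδ hC hK hw x h hh).trans ?_
    apply div_le_div_of_nonneg_right _ (by positivity)
    apply mul_le_mul_of_nonneg_right _ (abs_nonneg _)
    linarith
  · intro x y
    exact part_c hδ0 hδ hC hK hw x y

end

end Pool.Agent.H17.LG
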